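import Pool.Agent.W475.BG.Cj
import Pool.Agent.W475.BH.NZ

set_option autoImplicit false

/-! # Final assembly -/

namespace Pool.Agent.W475.BG

open Complex MeasureTheory Filter Topology
open Pool.Agent.W475.BH (nz supp_finite nz_mono nz_union nz_eq_of_zeros)
open scoped ComplexConjugate

lemma bdd_zer (D : Dat) (κ R : ℝ) (P : ℂ → Prop) :
    Bornology.IsBounded {z : ℂ | z ∈ Zer D κ R ∧ P z} :=
  (Metric.isBounded_closedBall (x := (0 : ℂ)) (r := R)).subset fun z hz => by simpa using hz.1.2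

lemma nonzero_of_tot {D : Dat} (hD : Ok D) (hT : S_TOT D) {κ : ℝ} (hκ : 0 < κ) :
    ∃ z, XK D κ z ≠ 0 := by
  by_contra h
  push Not at h
  have h0 : XK D κ = fun _ => 0 := funext h
  have h1 : ∀ A : Set ℂ, nz (XK D κ) A = 0 := by
    intro A
    have h5 : ∀ z, analyticOrderNatAt (XK D κ) z = 0 := by
      intro z
      have : analyticOrderAt (XK D κ) z = ⊤ := by
        rw [analyticOrderAt_eq_top]
        exact Filter.Eventually.of_forall h
      unfold analyticOrderNatAt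
      rw [this]; rfl
    simp [nz, h5]
  have h2 := hT κ hκ
  simp only [h1] at h2
  have h3 : Tendsto (fun R : ℝ => ((0 : ℕ) : ℝ) / (R * Real.log R)) atTop (𝓝 0) := by
    simp
  have h4 := tendsto_nhds_unique h2 h3
  have hd : (0 : ℝ) < D.d := by exact_mod_cast hD.hd
  have : 0 < (D.d : ℝ) / Real.pi := by positivity
  linarith

theorem zer_finite {D : Dat} (hD : Ok D) (hY : S_SYM D) (hT : S_TOT D) {κ : ℝ} (hκ : 0 < κ)
    (R : ℝ) : (Zer D κ R).Finite := by
  have hf := (hY κ hκ).1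
  have han : AnalyticOnNhd ℂ (XK D κ) Set.univ := fun z _ => hf.analyticAt z
  by_contra hinf
  have hinf' : (Zer D κ R).Infinite := hinf
  have hs : Zer D κ R ⊆ Metric.closedBall (0 : ℂ) R := by
    intro z hz
    simpa using hz.2
  obtain ⟨x, _, hx⟩ := hinf'.exists_accPt_of_subset_isCompact (isCompact_closedBall (0 : ℂ) R) hs
  have hfr : ∃ᶠ z in 𝓝[≠] x, XK D κ z = 0 := by
    have := (accPt_iff_frequently_nhdsNE).1 hx
    exact this.mono fun z hz => hz.1
  have := han.eqOn_zero_of_preconnected_of_frequently_eq_zero isPreconnected_univ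
    (Set.mem_univ x) hfr
  obtain ⟨z, hz⟩ := nonzero_of_tot hD hT hκ
  exact hz (this (Set.mem_univ z))

theorem fin {D : Dat} (hD : Ok D) (hY : S_SYM D) (hT : S_TOT D) (hS : S_DSC D) : S_FIN D := by
  intro κ hκ
  have hf := (hY κ hκ).1
  have hne := nonzero_of_tot hD hT hκ
  have hd : (0 : ℝ) < D.d := by exact_mod_cast hD.hd
  have hdπ : 0 < (D.d : ℝ) / Real.pi := by positivity
  have e1 : ∀ R, nz (XK D κ) (Zer D κ R) = nz (XK D κ) {z | ‖z‖ ≤ R} := by
    intro R
    refine nz_eq_of_zeros fun z hz => ?_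
    simp [Zer, hz]
  have e2 : ∀ (R : ℝ) (P : ℂ → Prop), nz (XK D κ) {z | z ∈ Zer D κ R ∧ P z} =
      nz (XK D κ) {z | ‖z‖ ≤ R ∧ P z} := by
    intro R P
    refine nz_eq_of_zeros fun z hz => ?_
    simp [Zer, hz]
  have t1 : Tendsto (fun R : ℝ => (nz (XK D κ) (Zer D κ R) : ℝ) / (R * Real.log R)) atTop
      (𝓝 (D.d / Real.pi)) := by
    simp only [e1]
    exact hT κ hκ
  have t2 : ∀ a b : ℝ, 1 - 1 / (D.d : ℝ) < a → a ≤ b → b ≤ 1 →
    Tendsto (fun R : ℝ => (nz (XK D κ) {z | z ∈ Zer D κ R ∧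
      a * (D.d * κ * Real.log R) ≤ z.re ∧ z.re ≤ b * (D.d * κ * Real.log R)} : ℝ) /
        (nz (XK D κ) (Zer D κ R) : ℝ)) atTop (𝓝 ((b - a) / 2)) := by
    intro a b ha hab hb
    have hX1 : ((D.d : ℝ) - 1) * κ < a * D.d * κ := by
      have h1 : (1 - 1 / (D.d : ℝ)) * D.d < a * D.d := mul_lt_mul_of_pos_right ha hd
      have h2 : (1 - 1 / (D.d : ℝ)) * D.d = (D.d : ℝ) - 1 := by field_simp
      rw [h2] at h1
      exact mul_lt_mul_of_pos_right h1 hκ
    have hX2 : a * D.d * κ ≤ b * D.d * κ := by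
      have : a * D.d ≤ b * D.d := mul_le_mul_of_nonneg_right hab hd.le
      exact mul_le_mul_of_nonneg_right this hκ.le
    have hX3 : b * D.d * κ ≤ D.d * κ := by
      have : b * D.d ≤ 1 * D.d := mul_le_mul_of_nonneg_right hb hd.le
      rw [one_mul] at this
      exact mul_le_mul_of_nonneg_right this hκ.le
    have h := (hS κ (a * D.d * κ) (b * D.d * κ) hκ hX1 hX2 hX3).div t1 hdπ.ne'
    have hv : (b * D.d * κ - a * D.d * κ) / (2 * Real.pi * κ) / (D.d / Real.pi) = (b - a) / 2 := by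
      field_simp
    rw [hv] at h
    refine h.congr' ?_
    filter_upwards [eventually_gt_atTop (1 : ℝ)] with R hR
    have hden : 0 < R * Real.log R := mul_pos (by linarith) (Real.log_pos hR)
    simp only [Pi.div_apply]
    rw [div_div_div_cancel_right₀ hden.ne']
    rw [e2]
    congr 3
    ext z
    simp only [Set.mem_ofPred_eq]
    constructor <;> rintro ⟨p, q, r⟩ <;> refine ⟨p, ?_, ?_⟩ <;> linarith
  have t3 : ∀ a b : ℝ, 1 - 1 / (D.d : ℝ) < a → a ≤ b → b ≤ 1 →
    Tendsto (fun R : ℝ => (nz (XK D κ) {z | z ∈ Zer D κ R ∧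
      a * (D.d * κ * Real.log R) ≤ -z.re ∧ -z.re ≤ b * (D.d * κ * Real.log R)} : ℝ) /
        (nz (XK D κ) (Zer D κ R) : ℝ)) atTop (𝓝 ((b - a) / 2)) := by
    intro a b ha hab hb
    refine (t2 a b ha hab hb).congr ?_
    intro R
    congr 2
    rw [e2, e2, ← nz_refl hD.hw hY hκ]
    congr 1
    ext z
    simp
  refine ⟨zer_finite hD hY hT hκ, t1, fun a b ha hab hb => ⟨t2 a b ha hab hb, t3 a b ha hab hb⟩, ?_⟩
  intro ε hε
  have hd1 : 0 < 1 / (D.d : ℝ) := by positivity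
  have hd1' : 1 / (D.d : ℝ) ≤ 1 := by
    rw [div_le_one hd]; exact_mod_cast hD.hd
  by_cases hbig : 1 / (D.d : ℝ) ≤ ε
  · refine Filter.Eventually.of_forall fun R => ?_
    have h1 : (1 / (D.d : ℝ) - ε) * (nz (XK D κ) (Zer D κ R) : ℝ) ≤ 0 :=
      mul_nonpos_of_nonpos_of_nonneg (by linarith) (Nat.cast_nonneg _)
    exact h1.trans (Nat.cast_nonneg _)
  · push Not at hbig
    set a : ℝ := 1 - 1 / (D.d : ℝ) + ε / 2 with ha_def
    have ha0 : 0 < a := by rw [ha_def]; linarith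
    have ha1 : 1 - 1 / (D.d : ℝ) < a := by rw [ha_def]; linarith
    have ha2 : a ≤ 1 := by rw [ha_def]; linarith
    have s := (t2 a 1 ha1 ha2 le_rfl).add (t3 a 1 ha1 ha2 le_rfl)
    have hlim : 1 / (D.d : ℝ) - ε < (1 - a) / 2 + (1 - a) / 2 := by rw [ha_def]; linarith
    have s2 := (tendsto_order.1 s).1 _ hlim
    filter_upwards [s2, eventually_gt_atTop (1 : ℝ), (tendsto_order.1 t1).1 0 hdπ] with R hR hR1 hR2
    have hl : 0 < Real.log R := Real.log_pos hR1
    have hden : 0 < R * Real.log R := mul_pos (by linarith) hl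
    have hN : 0 < (nz (XK D κ) (Zer D κ R) : ℝ) := by
      by_contra hc
      push Not at hc
      have := div_nonpos_of_nonpos_of_nonneg hc hden.le
      linarith
    rw [← add_div, lt_div_iff₀ hN] at hR
    refine hR.le.trans ?_
    set A : Set ℂ := {z | z ∈ Zer D κ R ∧
      a * (D.d * κ * Real.log R) ≤ z.re ∧ z.re ≤ 1 * (D.d * κ * Real.log R)} with hA
    set B : Set ℂ := {z | z ∈ Zer D κ R ∧
      a * (D.d * κ * Real.log R) ≤ -z.re ∧ -z.re ≤ 1 * (D.d * κ * Real.log R)} with hB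
    have hp : 0 < a * (D.d * κ * Real.log R) := by positivity
    have hdis : Disjoint A B := by
      rw [Set.disjoint_left]
      rintro z ⟨_, p, _⟩ ⟨_, q, _⟩
      linarith
    have hu := nz_union hf hne (bdd_zer D κ R _) (bdd_zer D κ R _) hdis
    have hm : nz (XK D κ) (A ∪ B) ≤ nz (XK D κ) {z | z ∈ Zer D κ R ∧ z.re ≠ 0} := by
      refine nz_mono hf hne (bdd_zer D κ R _) ?_
      rintro z (⟨p, q, _⟩ | ⟨p, q, _⟩)
      · exact ⟨p, by intro h0; rw [h0] at q; linarith⟩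
      · exact ⟨p, by intro h0; rw [h0] at q; linarith⟩
    rw [hu] at hm
    exact_mod_cast hm

end Pool.Agent.W475.BG
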