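import Pool.Agent.W475.BG.Inst
import Pool.Agent.W475.BG.Fin

set_option autoImplicit false

/-! # The theorem for the flow of a completed function with centre `c0` -/

namespace Pool.Agent.W475.BG

open Complex MeasureTheory Filter Topology
open Pool.Agent.W475.BH (nz nz_affine)

lemma XK_flow {D : Dat} {c0 : ℝ} {c : ℂ} {Λ : ℂ → ℂ}
    (hL : ∀ s, D.Lam s = c * Λ (s + ((c0 - 1 / 2 : ℝ) : ℂ))) (κ : ℝ) (z : ℂ) :
    XK D κ z = c * flow κ Λ ((c0 : ℂ) + z) := by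
  unfold XK flow
  have : ∀ v : ℝ, ((Real.exp (-v ^ 2) : ℝ) : ℂ) *
      D.Lam (1 / 2 + z + I * ((2 * Real.sqrt κ * v : ℝ) : ℂ)) =
      c * (((Real.exp (-v ^ 2) : ℝ) : ℂ) *
        Λ ((c0 : ℂ) + z + I * ((2 * Real.sqrt κ * v : ℝ) : ℂ))) := by
    intro v
    rw [hL]
    have e : (1 / 2 + z + I * ((2 * Real.sqrt κ * v : ℝ) : ℂ)) + ((c0 - 1 / 2 : ℝ) : ℂ) =
        (c0 : ℂ) + z + I * ((2 * Real.sqrt κ * v : ℝ) : ℂ) := by
      push_cast; ring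
    rw [e]; ring
  simp only [this]
  rw [integral_const_mul]
  ring

lemma flow_eq {D : Dat} {c0 : ℝ} {c : ℂ} (hc : c ≠ 0) {Λ : ℂ → ℂ}
    (hL : ∀ s, D.Lam s = c * Λ (s + ((c0 - 1 / 2 : ℝ) : ℂ))) (κ : ℝ) :
    flow κ Λ = fun s => c⁻¹ * XK D κ (-(c0 : ℂ) + 1 * s) := by
  funext s
  rw [XK_flow hL]
  rw [show (c0 : ℂ) + (-(c0 : ℂ) + 1 * s) = s by ring]
  field_simp

theorem flow_diff {D : Dat} (hY : S_SYM D) {c0 : ℝ} {c : ℂ} (hc : c ≠ 0) {Λ : ℂ → ℂ}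
    (hL : ∀ s, D.Lam s = c * Λ (s + ((c0 - 1 / 2 : ℝ) : ℂ))) {κ : ℝ} (hκ : 0 < κ) :
    Differentiable ℂ (flow κ Λ) := by
  rw [flow_eq hc hL κ]
  refine Differentiable.const_mul ?_ _
  exact (hY κ hκ).1.comp ((differentiable_const _).add (differentiable_id.const_mul _))

theorem flw {D : Dat} (hY : S_SYM D) (h : S_FIN D) {c0 : ℝ} {c : ℂ} (hc : c ≠ 0) {Λ : ℂ → ℂ}
    (hL : ∀ s, D.Lam s = c * Λ (s + ((c0 - 1 / 2 : ℝ) : ℂ))) :
    Law D.d c0 Λ := by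
  have hX : ∀ (κ : ℝ) (z : ℂ), XK D κ z = c * flow κ Λ ((c0 : ℂ) + z) := XK_flow hL
  intro κ hκ
  obtain ⟨h1, h2, h3, h4⟩ := h κ hκ
  have hF : flow κ Λ = fun s => c⁻¹ * XK D κ (-(c0 : ℂ) + 1 * s) := flow_eq hc hL κ
  have hnum : ∀ A : Set ℂ, num κ Λ {s | -(c0 : ℂ) + 1 * s ∈ A} = (nz (XK D κ) A : ℝ) := by
    intro A
    unfold num
    have h5 := nz_affine (f := XK D κ) (hY κ hκ).1 (c := -(c0 : ℂ)) (m := 1) (k := c⁻¹)
      one_ne_zero (inv_ne_zero hc) A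
    rw [← hF] at h5
    exact_mod_cast congrArg (fun n : ℕ => (n : ℝ)) h5
  have hmem : ∀ (R : ℝ) (s : ℂ), s ∈ zeros κ Λ c0 R ↔ -(c0 : ℂ) + 1 * s ∈ Zer D κ R := by
    intro R s
    have e : s - (c0 : ℂ) = -(c0 : ℂ) + 1 * s := by ring
    unfold zeros Zer
    simp only [Set.mem_ofPred_eq]
    rw [hX, show (c0 : ℂ) + (-(c0 : ℂ) + 1 * s) = s by ring, e]
    constructor
    · rintro ⟨p, q⟩; exact ⟨by rw [p, mul_zero], q⟩
    · rintro ⟨p, q⟩; exact ⟨(mul_eq_zero.1 p).resolve_left hc, q⟩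
  have hre : ∀ s : ℂ, (-(c0 : ℂ) + 1 * s).re = s.re - c0 := by
    intro s; simp; ring
  have n1 : ∀ R, num κ Λ (zeros κ Λ c0 R) = (nz (XK D κ) (Zer D κ R) : ℝ) := by
    intro R
    rw [← hnum]
    congr 1
    ext s
    exact hmem R s
  have n2 : ∀ (R : ℝ) (P : ℝ → Prop), num κ Λ {s | s ∈ zeros κ Λ c0 R ∧ P (s.re - c0)} =
      (nz (XK D κ) {z | z ∈ Zer D κ R ∧ P z.re} : ℝ) := by
    intro R P
    rw [← hnum]
    congr 1
    ext s
    simp only [Set.mem_ofPred_eq, hmem, hre]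
  refine ⟨?_, ?_, ?_, ?_⟩
  · intro R
    have : zeros κ Λ c0 R = (fun s : ℂ => -(c0 : ℂ) + 1 * s) ⁻¹' (Zer D κ R) := by
      ext s; exact hmem R s
    rw [this]
    refine (h1 R).preimage ?_
    intro x _ y _ hxy
    simpa using hxy
  · simp only [n1]
    exact h2
  · intro a b ha hab hb
    obtain ⟨p, q⟩ := h3 a b ha hab hb
    refine ⟨?_, ?_⟩
    · refine p.congr fun R => ?_
      rw [n1, ← n2 R (fun x => a * (D.d * κ * Real.log R) ≤ x ∧ x ≤ b * (D.d * κ * Real.log R))]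
    · refine q.congr fun R => ?_
      rw [n1, ← n2 R (fun x => a * (D.d * κ * Real.log R) ≤ -x ∧ -x ≤ b * (D.d * κ * Real.log R))]
      congr 2
      ext s
      simp only [neg_sub]
  · intro ε hε
    filter_upwards [h4 ε hε] with R hR
    rw [n1]
    refine hR.trans (le_of_eq ?_)
    rw [← n2 R (fun x => x ≠ 0)]
    congr 1
    ext s
    simp only [Set.mem_ofPred_eq, sub_ne_zero]

end Pool.Agent.W475.BG
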