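import Pool.Agent.W475.BG.Stm

set_option autoImplicit false

/-! # Zeros under complex conjugation and under the functional equation -/

namespace Pool.Agent.W475.BG

open Complex Filter Topology
open Pool.Agent.W475.BH (nz)
open scoped ComplexConjugate

/-- The conjugate function. -/
noncomputable def sh (f : ℂ → ℂ) : ℂ → ℂ := fun s => conj (f (conj s))

lemma sh_sh (f : ℂ → ℂ) : sh (sh f) = f := by
  ext s; simp [sh]

lemma sh_diff {f : ℂ → ℂ} (hf : Differentiable ℂ f) : Differentiable ℂ (sh f) := by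
  intro s
  have h0 : DifferentiableAt ℂ f (conj s) := hf (conj s)
  have := h0.conj_conj
  rw [Complex.conj_conj] at this
  exact this

lemma conj_tendsto (z : ℂ) : Tendsto (fun s : ℂ => conj s) (𝓝 (conj z)) (𝓝 z) := by
  have := (Complex.continuous_conj).tendsto (conj z)
  simpa using this

lemma analyticAt_sh {g : ℂ → ℂ} {z : ℂ} (hg : AnalyticAt ℂ g z) : AnalyticAt ℂ (sh g) (conj z) := by
  have h1 : ∀ᶠ s in 𝓝 z, DifferentiableAt ℂ g s :=
    (hg.eventually_analyticAt).mono fun s hs => hs.differentiableAt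
  have h2 : ∀ᶠ s in 𝓝 (conj z), DifferentiableAt ℂ (sh g) s := by
    filter_upwards [(conj_tendsto z).eventually h1] with s hs
    have := hs.conj_conj
    rw [Complex.conj_conj] at this
    exact this
  exact Complex.analyticAt_iff_eventually_differentiableAt.2 h2

lemma order_sh_le {f : ℂ → ℂ} (hf : Differentiable ℂ f) (z : ℂ) :
    analyticOrderAt (sh f) (conj z) = analyticOrderAt f z := by
  have ha : AnalyticAt ℂ f z := hf.analyticAt z
  have hb : AnalyticAt ℂ (sh f) (conj z) := (sh_diff hf).analyticAt _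
  cases h : analyticOrderAt f z with
  | top =>
    rw [analyticOrderAt_eq_top] at h ⊢
    filter_upwards [(conj_tendsto z).eventually h] with s hs
    simp [sh, hs]
  | coe n =>
    obtain ⟨g, hg, hgz, hfg⟩ := (ha.analyticOrderAt_eq_natCast).1 h
    refine (hb.analyticOrderAt_eq_natCast).2 ⟨sh g, analyticAt_sh hg, by simpa [sh] using hgz, ?_⟩
    filter_upwards [(conj_tendsto z).eventually hfg] with s hs
    simp only [sh, hs, smul_eq_mul, map_mul, map_pow, map_sub, Complex.conj_conj]

/-- The order at the conjugate point. -/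
lemma order_sh {f : ℂ → ℂ} (hf : Differentiable ℂ f) (z : ℂ) :
    analyticOrderNatAt (sh f) (conj z) = analyticOrderNatAt f z := by
  unfold analyticOrderNatAt
  rw [order_sh_le hf]

/-- Counting zeros of the conjugate function. -/
lemma nz_sh {f : ℂ → ℂ} (hf : Differentiable ℂ f) (A : Set ℂ) :
    nz (sh f) {z | conj z ∈ A} = nz f A := by
  unfold nz
  let e : ℂ ≃ ℂ := ⟨fun z => conj z, fun z => conj z, fun z => by simp, fun z => by simp⟩
  have h1 : (∑ᶠ z ∈ A, analyticOrderNatAt f z) =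
      ∑ᶠ z, ∑ᶠ (_ : e z ∈ A), analyticOrderNatAt f (e z) :=
    (finsum_comp_equiv e (f := fun z => ∑ᶠ (_ : z ∈ A), analyticOrderNatAt f z)).symm
  rw [h1]
  refine finsum_congr fun z => ?_
  refine finsum_congr_Prop rfl fun _ => ?_
  have := order_sh hf (conj z)
  rw [Complex.conj_conj] at this
  exact this

/-- Multiplication by a non-zero constant. -/
lemma nz_const {f : ℂ → ℂ} (c : ℂ) (hc : c ≠ 0) (A : Set ℂ) (hf : Differentiable ℂ f) :
    nz (fun z => c * f z) A = nz f A := by
  unfold nz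
  refine finsum_congr fun z => ?_
  refine finsum_congr_Prop rfl fun _ => ?_
  unfold analyticOrderNatAt
  have h1 : (fun z => c * f z) = (fun _ => c) * f := rfl
  rw [h1, analyticOrderAt_mul analyticAt_const (hf.analyticAt z)]
  have h2 : analyticOrderAt (fun _ : ℂ => c) z = 0 :=
    (analyticAt_const.analyticOrderAt_eq_zero).2 hc
  rw [h2, zero_add]

/-- Zeros under `z ↦ -z`. -/
lemma nz_negarg {f : ℂ → ℂ} (hf : Differentiable ℂ f) (A : Set ℂ) :
    nz (fun z => f (-z)) {z | -z ∈ A} = nz f A := by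
  unfold nz
  have h1 : (∑ᶠ z ∈ A, analyticOrderNatAt f z) =
      ∑ᶠ z, ∑ᶠ (_ : (Equiv.neg ℂ) z ∈ A), analyticOrderNatAt f ((Equiv.neg ℂ) z) :=
    (finsum_comp_equiv (Equiv.neg ℂ) (f := fun z => ∑ᶠ (_ : z ∈ A), analyticOrderNatAt f z)).symm
  rw [h1]
  refine finsum_congr fun z => ?_
  refine finsum_congr_Prop rfl fun _ => ?_
  unfold analyticOrderNatAt
  have hd : Differentiable ℂ (fun z : ℂ => f (-z)) := hf.comp differentiable_neg
  have ha : AnalyticAt ℂ f (-z) := hf.analyticAt _
  have hb : AnalyticAt ℂ (fun z : ℂ => f (-z)) z := hd.analyticAt _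
  have ht : Tendsto (fun s : ℂ => -s) (𝓝 z) (𝓝 (-z)) := (continuous_neg.tendsto z)
  congr 1
  change analyticOrderAt (fun z => f (-z)) z = analyticOrderAt f (-z)
  cases h : analyticOrderAt f (-z) with
  | top =>
    rw [analyticOrderAt_eq_top] at h ⊢
    exact ht.eventually h
  | coe n =>
    obtain ⟨g, hg, hgz, hfg⟩ := (ha.analyticOrderAt_eq_natCast).1 h
    refine (hb.analyticOrderAt_eq_natCast).2 ⟨fun s => (-1) ^ n * g (-s), ?_, ?_, ?_⟩
    · refine analyticAt_const.mul ?_
      exact AnalyticAt.comp (g := g) (f := fun s : ℂ => -s) hg (analyticAt_id.neg)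
    · exact mul_ne_zero (pow_ne_zero _ (by norm_num)) hgz
    · filter_upwards [ht.eventually hfg] with s hs
      rw [hs]
      simp only [smul_eq_mul]
      have : (-s - -z) = -1 * (s - z) := by ring
      rw [this, mul_pow]
      ring

/-- The lower half plane of `XK D` is the upper half plane of `XK (cj D)`. -/
lemma nz_cj {D : Dat} (hY : S_SYM D) {κ : ℝ} (hκ : 0 < κ) (A : Set ℂ) :
    nz (XK (cj D) κ) {z | conj z ∈ A} = nz (XK D κ) A := by
  obtain ⟨h1, h2, h3⟩ := hY κ hκ
  have : XK (cj D) κ = sh (XK D κ) := by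
    ext z; exact h3 z
  rw [this]
  exact nz_sh h1 A

/-- The reflection in the line. -/
lemma nz_refl {D : Dat} (hw : ‖D.w‖ = 1) (hY : S_SYM D) {κ : ℝ} (hκ : 0 < κ) (A : Set ℂ) :
    nz (XK D κ) {z | -conj z ∈ A} = nz (XK D κ) A := by
  obtain ⟨h1, h2, h3⟩ := hY κ hκ
  have hw0 : D.w ≠ 0 := by
    intro h; rw [h] at hw; simp at hw
  have e1 : (fun z => XK D κ (-z)) = fun z => D.w * sh (XK D κ) z := by
    ext z; exact h2 z
  have e2 : nz (fun z => XK D κ (-z)) {z | -z ∈ A} = nz (XK D κ) A := nz_negarg h1 A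
  rw [e1, nz_const D.w hw0 _ (sh_diff h1)] at e2
  have e3 := nz_sh (sh_diff h1) {z | -z ∈ A}
  rw [sh_sh] at e3
  rw [← e2, ← e3]
  rfl

end Pool.Agent.W475.BG
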