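import Mathlib
import Pool.Agent.W475.BH.Stm

set_option autoImplicit false

/-!
# Zeros of the backward heat flow of an L-function of degree `d`: the pieces

`fl D κ = e^{-κ (d/ds)²} Λ`.  THEOREM: the zeros `s = 1/2 + z` of `fl D κ` in the disc of radius `R`
number `(d / π) R log R`, those with `re z` in `[a, b] d κ log R`, `1 - 1/d < a ≤ b ≤ 1`, are a
proportion `(b - a) / 2` of them; so at least `1/d` of all zeros are not on the line.  The case of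
`ξ` (degree one) is project BH (`Pool.Agent.W475.BH.Stm`), the names are the same.
-/

namespace Pool.Agent.W475.BG

open Complex MeasureTheory Filter Topology
open Pool.Agent.W475.BH (nz PP Bx ell Vh Gk)
open scoped ComplexConjugate

/-! ## Objects -/

/-- An L-function: degree, archimedean parameters, conductor, coefficients, completed function, sign. -/
structure Dat where
  d : ℕ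
  mu : Fin d → ℝ
  Q : ℝ
  a : ℕ → ℂ
  Lam : ℂ → ℂ
  w : ℂ

/-- The primes `p` with `a log T + 1 ≤ log p ≤ b log T - 1` are `PP a b T`. -/
structure Ok (D : Dat) : Prop where
  hd : 1 ≤ D.d
  hmu : ∀ j, 0 ≤ D.mu j
  hQ : 0 < D.Q
  hw : ‖D.w‖ = 1
  a1 : D.a 1 = 1
  mult : ∀ p n : ℕ, p.Prime → 1 ≤ n → ¬ p ∣ n → D.a (p * n) = D.a p * D.a n
  gr : ∃ A : ℝ, 0 ≤ A ∧ ∀ n : ℕ, 1 ≤ n → ‖D.a n‖ ≤ (n : ℝ) ^ A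
  diff : Differentiable ℂ D.Lam
  strip : ∀ K : ℝ, ∃ C : ℝ, ∀ s : ℂ, |s.re| ≤ K → ‖D.Lam s‖ ≤ C
  ser : ∃ σ : ℝ, ∀ s : ℂ, σ ≤ s.re →
    D.Lam s = (D.Q : ℂ) ^ s * (∏ j, Gammaℝ (s + D.mu j)) * LSeries D.a s
  fe : ∀ s : ℂ, D.Lam (1 - s) = D.w * conj (D.Lam (conj s))
  shrt : ∃ C : ℝ, 0 < C ∧ ∀ x h : ℝ, 2 ≤ x → x / Real.log x ^ 3 ≤ h → h ≤ x →
    ∑ n ∈ Finset.Ioc ⌊x⌋₊ ⌊x + h⌋₊, ‖D.a n‖ ^ 2 ≤ C * h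
  prim : ∀ α β : ℝ, 0 < α → α < β → ∃ c T0 : ℝ, 0 < c ∧ 2 ≤ T0 ∧ ∀ T : ℝ, T0 ≤ T →
    c ≤ ∑ p ∈ PP α β T, ‖D.a p‖ ^ 2 / (p : ℝ)

/-- The gamma factor at `1/2 + z`. -/
noncomputable def HH (D : Dat) (z : ℂ) : ℂ :=
  (D.Q : ℂ) ^ (1 / 2 + z) * ∏ j, Gammaℝ (1 / 2 + z + D.mu j)

/-- Its backward heat flow (used for `0 ≤ re z`). -/
noncomputable def GG (D : Dat) (κ : ℝ) (z : ℂ) : ℂ :=
  ((1 / Real.sqrt Real.pi : ℝ) : ℂ) *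
    ∫ v : ℝ, ((Real.exp (-v ^ 2) : ℝ) : ℂ) * HH D (z + I * ((2 * Real.sqrt κ * v : ℝ) : ℂ))

/-- The `n`-th term (`n = 0, 1, 2, ...` stands for `1, 2, 3, ...`) of the backward heat flow. -/
noncomputable def XT (D : Dat) (κ : ℝ) (z : ℂ) (n : ℕ) : ℂ :=
  D.a (n + 1) * ((n : ℂ) + 1) ^ (-(1 / 2) - z) *
    ((Real.exp (-(κ * Real.log ((n : ℝ) + 1) ^ 2)) : ℝ) : ℂ) *
    GG D κ (z + ((2 * κ * Real.log ((n : ℝ) + 1) : ℝ) : ℂ))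

/-- The backward heat flow `e^{-κ (d/ds)²} Λ` at `1/2 + z`. -/
noncomputable def XK (D : Dat) (κ : ℝ) (z : ℂ) : ℂ :=
  ((1 / Real.sqrt Real.pi : ℝ) : ℂ) *
    ∫ v : ℝ, ((Real.exp (-v ^ 2) : ℝ) : ℂ) * D.Lam (1 / 2 + z + I * ((2 * Real.sqrt κ * v : ℝ) : ℂ))

noncomputable def be (D : Dat) (t : ℝ) : ℂ := logDeriv (HH D) (I * t)

/-- The `n`-th term (`n ≥ 1`) of the local expansion of `XK D κ (I t + u) / HH D (I t)`. -/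
noncomputable def tm (D : Dat) (κ t : ℝ) (u : ℂ) (n : ℕ) : ℂ :=
  D.a n * (n : ℂ) ^ (-(1 / 2) - I * t) *
    cexp ((be D t - (Real.log n : ℂ)) * u - (κ : ℂ) * (be D t - (Real.log n : ℂ)) ^ 2)

/-- The profile: `log ‖XK D κ (I t + u) / HH D (I t)‖` is about `(log t)² Vd d κ (re u / log t)`. -/
noncomputable def Vd (d : ℕ) (κ X : ℝ) : ℝ := (d : ℝ) * Vh ((d : ℝ) * κ) X

/-- The phase. -/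
noncomputable def cc (D : Dat) (κ : ℝ) (n : ℕ) : ℂ :=
  cexp (I * ((κ * Real.pi * (D.d : ℝ) / 2 * Real.log n : ℝ) : ℂ))

/-- The local Dirichlet series near `n = exp lam`. -/
noncomputable def SS (D : Dat) (κ lam t : ℝ) : ℂ := ∑' n : ℕ,
  cexp (I * ((κ * Real.pi * (D.d : ℝ) / 2 * Real.log ((n : ℝ) + 1) : ℝ) : ℂ)) *
    (D.a (n + 1) * ((n : ℂ) + 1) ^ (-(1 / 2) - I * t)) *
    ((Real.exp (-(κ * (Real.log ((n : ℝ) + 1) - lam) ^ 2)) : ℝ) : ℂ)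

/-- The dual L-function. -/
noncomputable def cj (D : Dat) : Dat :=
  ⟨D.d, D.mu, D.Q, fun n => conj (D.a n), fun s => conj (D.Lam (conj s)), conj D.w⟩

/-! ## A. The expansion and the gamma factor -/

/-- Task EXP. -/
def S_EXP (D : Dat) : Prop := ∀ κ : ℝ, 0 < κ → ∀ z : ℂ, 0 ≤ z.re →
  Summable (fun n => ‖XT D κ z n‖) ∧ XK D κ z = ∑' n : ℕ, XT D κ z n

/-- Task SYM. -/
def S_SYM (D : Dat) : Prop := ∀ κ : ℝ, 0 < κ → Differentiable ℂ (XK D κ) ∧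
  (∀ z, XK D κ (-z) = D.w * conj (XK D κ (conj z))) ∧
  (∀ z, XK (cj D) κ z = conj (XK D κ (conj z)))

/-- Task GRW: growth, with the exact leading coefficient. -/
def S_GRW (D : Dat) : Prop := ∀ κ : ℝ, 0 < κ → ∃ C : ℝ, 0 < C ∧ ∀ z : ℂ, ‖XK D κ z‖ ≤
    Real.exp ((D.d : ℝ) * |z.re| / 2 * Real.log (2 + ‖z‖) + C * (1 + ‖z‖))

/-- One gamma factor. -/
noncomputable def one (m : ℝ) : Dat := ⟨1, fun _ => m, 1, fun _ => 0, fun _ => 0, 1⟩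

/-- Task STIR. -/
def S_STIR (D : Dat) : Prop := ∃ K T0 : ℝ, 1 ≤ K ∧ 1 ≤ T0 ∧ ∀ t : ℝ, T0 ≤ t →
  HH D (I * t) ≠ 0 ∧
  ‖be D t - (((D.d : ℝ) * Real.log (t / (2 * Real.pi)) / 2 + Real.log D.Q : ℝ) +
    I * ((D.d : ℝ) * Real.pi / 4 : ℝ))‖ ≤ K / t ∧
  Real.exp (-(K * t)) ≤ ‖HH D (I * t)‖ ∧
  (∀ u : ℂ, ‖u‖ ≤ t / 8 → 0 < (I * t + u).im ∧ DifferentiableAt ℂ (HH D) (I * t + u) ∧
    ‖HH D (I * t + u)‖ ≤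
      ‖HH D (I * t)‖ * Real.exp ((D.d : ℝ) * Real.log t / 2 * u.re + K * ‖u‖)) ∧
  (∀ u : ℂ, K * ‖u‖ ^ 2 ≤ t →
    ‖HH D (I * t + u) - HH D (I * t) * cexp (be D t * u)‖ ≤
      K * ‖u‖ ^ 2 / t * ‖HH D (I * t) * cexp (be D t * u)‖) ∧
  ∀ h : ℝ, |h| ≤ t / 16 →
    ‖HH D (I * t)‖ ≤ ‖HH D (I * ((t + h : ℝ) : ℂ))‖ * Real.exp (K * |h|) ∧
    ‖HH D (I * ((t + h : ℝ) : ℂ))‖ ≤ ‖HH D (I * t)‖ * Real.exp (K * |h|)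

/-- Task GGC: crude bounds for the gamma factor and its flow, and integrability. -/
def S_GGC (D : Dat) : Prop := ∃ K : ℝ, 1 ≤ K ∧ (∀ κ : ℝ, 0 < κ → ∀ z : ℂ, 0 ≤ z.re →
    Integrable (fun v : ℝ => ((Real.exp (-v ^ 2) : ℝ) : ℂ) *
      HH D (z + I * ((2 * Real.sqrt κ * v : ℝ) : ℂ))) ∧
    ‖GG D κ z‖ ≤ Real.exp (K * (1 + z.re) * Real.log (2 + z.re))) ∧
  ∀ z : ℂ, 0 ≤ z.re → ‖HH D z‖ ≤ Real.exp (K * (1 + z.re) * Real.log (2 + z.re))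

/-- Task GGA: the flow of the gamma factor near `I t`. -/
def S_GGA (D : Dat) : Prop := ∀ κ : ℝ, 0 < κ → ∀ K : ℝ, 1 ≤ K → ∃ T0 : ℝ, 2 ≤ T0 ∧
  ∀ t : ℝ, T0 ≤ t → ∀ u : ℂ, ‖u‖ ≤ K * Real.log t → 0 ≤ u.re →
  ‖GG D κ (I * t + u) - HH D (I * t) * cexp (be D t * u - (κ : ℂ) * be D t ^ 2)‖ ≤
    t ^ (-(9 / 10) : ℝ) * ‖HH D (I * t) * cexp (be D t * u - (κ : ℂ) * be D t ^ 2)‖

/-- Task GGU: upper bound for the flow of the gamma factor further away. -/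
def S_GGU (D : Dat) : Prop := ∀ κ : ℝ, 0 < κ → ∃ K T0 : ℝ, 1 ≤ K ∧ 2 ≤ T0 ∧ ∀ t : ℝ, T0 ≤ t →
  ∀ u : ℂ, ‖u‖ ≤ t / 16 → 0 ≤ u.re →
  ‖GG D κ (I * t + u)‖ ≤
    ‖HH D (I * t)‖ * Real.exp ((D.d : ℝ) * Real.log t / 2 * u.re + K * (1 + ‖u‖))

/-- Task TAIL. -/
def S_TAIL (D : Dat) : Prop := ∀ κ : ℝ, 0 < κ → ∀ K : ℝ, 1 ≤ K → ∃ M T0 : ℝ, 1 ≤ M ∧ 2 ≤ T0 ∧
  ∀ t : ℝ, T0 ≤ t → ∀ u : ℂ, ‖u‖ ≤ K * Real.log t → 0 ≤ u.re → ∀ s : Finset ℕ,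
  (∀ n ∈ s, t ^ M < (n : ℝ) + 1) →
  ∑ n ∈ s, ‖XT D κ (I * t + u) n‖ ≤ t ^ (-10 : ℝ) * ‖HH D (I * t)‖

/-! ## B. The local expansion -/

/-- Task LOC. -/
def S_LOC (D : Dat) : Prop := ∀ κ : ℝ, 0 < κ → ∀ K : ℝ, 1 ≤ K → ∃ M T0 : ℝ, 1 ≤ M ∧ 2 ≤ T0 ∧
  ∀ t : ℝ, T0 ≤ t → ∀ u : ℂ, ‖u‖ ≤ K * Real.log t → 0 ≤ u.re →
  ‖XK D κ (I * t + u) - HH D (I * t) * ∑ n ∈ Finset.Icc 1 ⌊t ^ M⌋₊, tm D κ t u n‖ ≤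
    ‖HH D (I * t)‖ * (t ^ (-(9 / 10) : ℝ) * ∑ n ∈ Finset.Icc 1 ⌊t ^ M⌋₊, ‖tm D κ t u n‖ +
      t ^ (-10 : ℝ))

/-- Task UPP: upper bound on both sides of the line. -/
def S_UPP (D : Dat) : Prop := ∀ κ : ℝ, 0 < κ → ∀ K : ℝ, 1 ≤ K → ∃ C T0 : ℝ, 0 < C ∧ 2 ≤ T0 ∧
  ∀ t : ℝ, T0 ≤ t → ∀ u : ℂ, ‖u‖ ≤ K * Real.log t →
  ‖XK D κ (I * t + u)‖ ≤ ‖HH D (I * t)‖ *
    Real.exp (Real.log t ^ 2 * Vd D.d κ (u.re / Real.log t) + C * Real.log t)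

/-- Task LOWS: lower bound through the local Dirichlet series, in the outer part of the band. -/
def S_LOWS (D : Dat) : Prop := ∀ κ : ℝ, 0 < κ → ∃ T0 : ℝ, 2 ≤ T0 ∧ ∀ t : ℝ, T0 ≤ t →
  ∀ θ : ℝ, 0 ≤ θ → θ ≤ 2 * κ * (be D t).re → (be D t).re - θ / (2 * κ) ≤ Real.log t / 2 →
  ‖HH D (I * t)‖ * Real.exp (θ ^ 2 / (4 * κ)) *
    (‖SS D κ ((be D t).re - θ / (2 * κ)) t‖ - t ^ (-(1 / 2) : ℝ)) ≤ ‖XK D κ (I * t + (θ : ℂ))‖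

/-- Task LOWD: lower bound where the first term dominates. -/
def S_LOWD (D : Dat) : Prop := ∀ κ : ℝ, 0 < κ → ∀ δ : ℝ, 0 < δ → ∀ K : ℝ, 1 ≤ K →
  ∃ C T0 : ℝ, 0 < C ∧ 2 ≤ T0 ∧ ∀ t : ℝ, T0 ≤ t → ∀ u : ℂ, ‖u‖ ≤ K * Real.log t →
  ((D.d : ℝ) * κ + δ) * Real.log t ≤ |u.re| →
  ‖HH D (I * t)‖ * Real.exp (Real.log t ^ 2 * Vd D.d κ (u.re / Real.log t) - C * Real.log t) ≤
    ‖XK D κ (I * t + u)‖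

/-! ## C. The local Dirichlet series is rarely tiny -/

/-- Task D1: the terms with the same prime. -/
def S_D1 (D : Dat) : Prop := ∀ κ : ℝ, 0 < κ → ∃ C P0 : ℝ, 0 < C ∧ 2 ≤ P0 ∧
  ∀ (p N : ℕ) (W : ℝ), P0 ≤ p → 1 ≤ W → W ≤ Real.log p ^ (5 / 2 : ℝ) →
  ∑ n ∈ (Finset.Icc 1 N).filter (fun n => n ≠ p), ‖D.a n‖ ^ 2 / (n : ℝ) *
    Real.exp (-(κ * Real.log ((n : ℝ) / p) ^ 2)) * min 1 (4 / (W * Real.log ((n : ℝ) / p)) ^ 2) ≤ C / W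

/-- The coefficient of `(n / p)^(-i t)` in the tested and averaged series. -/
noncomputable def aw (D : Dat) (κ A B W : ℝ) (n p : ℕ) : ℂ :=
  (D.a n * conj (D.a p)) *
  ((((n : ℝ) * p) ^ (-(1 / 2) : ℝ) * Gk κ A B (Real.log n) (Real.log p) : ℝ) : ℂ) *
    (cc D κ n * conj (cc D κ p)) *
    (((1 / W : ℝ) : ℂ) * ∫ h in (0 : ℝ)..W, cexp (-(I * h * (Real.log ((n : ℝ) / p) : ℂ))))

/-- Task VAR: the variance. -/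
def S_VAR (D : Dat) : Prop := ∀ κ : ℝ, 0 < κ → ∀ a b γ : ℝ, 0 < a → a < b → b < γ → γ < 1 / 2 →
  ∃ C T0 : ℝ, 0 < C ∧ 2 ≤ T0 ∧ ∀ T : ℝ, T0 ≤ T → ∀ W : ℝ, 1 ≤ W → W ≤ Real.log T ^ 2 →
  ∫ t in T..(2 * T), ‖∑ q ∈ ((Finset.Icc 1 ⌊T ^ γ⌋₊) ×ˢ PP a b T).filter (fun q => q.1 ≠ q.2),
    aw D κ (a * Real.log T) (b * Real.log T) W q.1 q.2 *
      cexp (-(I * t * (Real.log ((q.1 : ℝ) / q.2) : ℂ)))‖ ^ 2 ≤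
    C * T * ((∑ p ∈ PP a b T, ‖D.a p‖ ^ 2 / (p : ℝ)) / W +
      ((∑ p ∈ PP a b T, ‖D.a p‖ ^ 2 / (p : ℝ)) / W) ^ 2) + C

/-- Task EN: the local Dirichlet series is rarely tiny in a whole box. -/
def S_EN (D : Dat) : Prop := ∀ κ : ℝ, 0 < κ → ∀ a b ω η : ℝ, 0 < a → a < b → b < 1 / 2 →
  0 < ω → 0 < η → ∃ T0 : ℝ, 2 ≤ T0 ∧ ∀ T : ℝ, T0 ≤ T →
  volume {t0 : ℝ | T ≤ t0 ∧ t0 ≤ 2 * T ∧ ∀ t lam : ℝ, t0 ≤ t → t ≤ t0 + ω * Real.log T →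
    a * Real.log T ≤ lam → lam ≤ b * Real.log T → ‖SS D κ lam t‖ ≤ T ^ (-(3 / 10) : ℝ)} ≤
    ENNReal.ofReal (η * T)

/-! ## D. Complex analysis (`Vh`, `ell` as in project BH) -/

/-- Task CAL: counting zeros from the profile, in a part of the band. -/
def S_CAL : Prop := ∀ κ X1 X2 g ε : ℝ, 0 < κ → 0 < g → X1 ≤ X2 → g ≤ X1 → X2 ≤ κ + 1 → 0 < ε →
  ∃ δ : ℝ, 0 < δ ∧ ∀ (M : ℝ) (f : ℂ → ℂ), 0 < M → Differentiable ℂ f →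
  (∀ z : ℂ, |z.re| ≤ κ + 4 → -4 ≤ z.im → z.im ≤ 5 → ‖f z‖ ≤ Real.exp (M * (Vh κ z.re + δ))) →
  (∀ z : ℂ, X1 - g ≤ z.re → z.re ≤ X2 + g → -2 ≤ z.im → z.im ≤ 3 →
    ∃ w : ℂ, ‖w - z‖ ≤ δ ∧ Real.exp (M * (Vh κ w.re - δ)) ≤ ‖f w‖) →
  |(nz f {z | X1 ≤ z.re ∧ z.re ≤ X2 ∧ 0 < z.im ∧ z.im ≤ 1} : ℝ) -
    M * (ell κ X1 X2 / (4 * Real.pi * κ))| ≤ ε * M

/-- Task CAT: counting all zeros of a tall box from the profile on both sides of it. -/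
def S_CAT : Prop := ∀ κ : ℝ, 0 < κ → ∃ C : ℝ, 0 < C ∧ ∀ H : ℝ, 1 ≤ H → ∃ δ : ℝ, 0 < δ ∧
  ∀ (M : ℝ) (f : ℂ → ℂ), 0 < M → Differentiable ℂ f →
  (∀ z : ℂ, |z.re| ≤ κ + 4 → -4 ≤ z.im → z.im ≤ H + 4 → ‖f z‖ ≤ Real.exp (M * (Vh κ z.re + δ))) →
  (∀ z : ℂ, κ + 1 / 4 ≤ |z.re| → |z.re| ≤ κ + 4 → -4 ≤ z.im → z.im ≤ H + 4 →
    Real.exp (M * (Vh κ z.re - δ)) ≤ ‖f z‖) →
  |(nz f {z | |z.re| ≤ κ + 1 ∧ 0 < z.im ∧ z.im ≤ H} : ℝ) - M * H / (2 * Real.pi)| ≤ C * M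

/-! ## E. Assembly -/

/-- Task WIN: one window; it is good if tiny boxes never occur near it. -/
def S_WIN (D : Dat) : Prop := ∀ κ δ H : ℝ, 0 < κ → 0 < δ → 1 ≤ H →
  ∃ (m : ℕ) (a b : Fin m → ℝ) (ω T0 : ℝ), 0 < ω ∧
  2 ≤ T0 ∧ (∀ i, 0 < a i ∧ a i < b i ∧ b i < 1 / 2) ∧ ∀ T t0 : ℝ, T0 ≤ T → T ≤ t0 → t0 ≤ 2 * T →
  (∀ z : ℂ, |z.re| ≤ D.d * κ + 4 → -4 ≤ z.im → z.im ≤ H + 4 →
    ‖XK D κ (I * t0 + (Real.log T : ℂ) * z)‖ ≤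
      ‖HH D (I * t0)‖ * Real.exp (Real.log T ^ 2 * (Vd D.d κ z.re + δ))) ∧
  (∀ z : ℂ, D.d * κ + 1 / 4 ≤ |z.re| → |z.re| ≤ D.d * κ + 4 → -4 ≤ z.im → z.im ≤ H + 4 →
    ‖HH D (I * t0)‖ * Real.exp (Real.log T ^ 2 * (Vd D.d κ z.re - δ)) ≤
      ‖XK D κ (I * t0 + (Real.log T : ℂ) * z)‖) ∧
  ((∀ (i : Fin m) (s : ℝ), t0 - 4 * Real.log T ≤ s → s ≤ t0 + 5 * Real.log T →
      ∃ t lam : ℝ, s ≤ t ∧ t ≤ s + ω * Real.log T ∧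
        a i * Real.log T ≤ lam ∧ lam ≤ b i * Real.log T ∧ T ^ (-(1 / 3) : ℝ) < ‖SS D κ lam t‖) →
    ∀ z : ℂ, (D.d - 1) * κ + δ ≤ z.re → z.re ≤ D.d * κ + 2 → -2 ≤ z.im → z.im ≤ 3 →
    ∃ w : ℂ, ‖w - z‖ ≤ δ ∧ ‖HH D (I * t0)‖ * Real.exp (Real.log T ^ 2 * (Vd D.d κ w.re - δ)) ≤
      ‖XK D κ (I * t0 + (Real.log T : ℂ) * w)‖)

/-- Task CRU: crude count in one window. -/
def S_CRU (D : Dat) : Prop := ∀ κ : ℝ, 0 < κ → ∃ C T0 : ℝ, 0 < C ∧ 2 ≤ T0 ∧ ∀ T t0 : ℝ, T0 ≤ T →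
  T ≤ t0 → t0 ≤ 2 * T → ∀ S : Set ℂ, (∀ z ∈ S, |z.re| ≤ (D.d * κ + 1) * Real.log T ∧ t0 ≤ z.im ∧
    z.im ≤ t0 + 2 * Real.log T) → (nz (XK D κ) S : ℝ) ≤ C * Real.log T ^ 2

/-- Task CNT: zeros of the outer band in a dyadic block. -/
def S_CNT (D : Dat) : Prop := ∀ κ X1 X2 : ℝ, 0 < κ → (D.d - 1) * κ < X1 → X1 ≤ X2 →
  X2 ≤ D.d * κ + 1 →
  Tendsto (fun T : ℝ => (nz (XK D κ) {z | X1 * Real.log T ≤ z.re ∧ z.re ≤ X2 * Real.log T ∧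
    T < z.im ∧ z.im ≤ 2 * T} : ℝ) / (T * Real.log T)) atTop
    (𝓝 (ell (D.d * κ) X1 X2 / (4 * Real.pi * κ)))

/-- Task CNA: all zeros in a dyadic block. -/
def S_CNA (D : Dat) : Prop := ∀ κ : ℝ, 0 < κ →
  Tendsto (fun T : ℝ => (nz (XK D κ) {z | |z.re| ≤ (D.d * κ + 1) * Real.log T ∧
    T < z.im ∧ z.im ≤ 2 * T} : ℝ) / (T * Real.log T)) atTop (𝓝 (D.d / (2 * Real.pi)))

/-- Task TOT: all zeros in a disc. -/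
def S_TOT (D : Dat) : Prop := ∀ κ : ℝ, 0 < κ →
  Tendsto (fun R : ℝ => (nz (XK D κ) {z | ‖z‖ ≤ R} : ℝ) / (R * Real.log R)) atTop
    (𝓝 (D.d / Real.pi))

/-- Task DSC: zeros of the outer band in a disc. -/
def S_DSC (D : Dat) : Prop := ∀ κ X1 X2 : ℝ, 0 < κ → (D.d - 1) * κ < X1 → X1 ≤ X2 → X2 ≤ D.d * κ →
  Tendsto (fun R : ℝ => (nz (XK D κ) {z | ‖z‖ ≤ R ∧ X1 * Real.log R ≤ z.re ∧ z.re ≤ X2 * Real.log R} :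
    ℝ) / (R * Real.log R)) atTop (𝓝 ((X2 - X1) / (2 * Real.pi * κ)))

/-- The zeros in a disc. -/
def Zer (D : Dat) (κ R : ℝ) : Set ℂ := {z | XK D κ z = 0 ∧ ‖z‖ ≤ R}

/-- Task FIN: the theorem. -/
def S_FIN (D : Dat) : Prop := ∀ κ : ℝ, 0 < κ →
  (∀ R : ℝ, (Zer D κ R).Finite) ∧
  Tendsto (fun R : ℝ => (nz (XK D κ) (Zer D κ R) : ℝ) / (R * Real.log R)) atTop
    (𝓝 (D.d / Real.pi)) ∧
  (∀ a b : ℝ, 1 - 1 / (D.d : ℝ) < a → a ≤ b → b ≤ 1 →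
    Tendsto (fun R : ℝ => (nz (XK D κ) {z | z ∈ Zer D κ R ∧
      a * (D.d * κ * Real.log R) ≤ z.re ∧ z.re ≤ b * (D.d * κ * Real.log R)} : ℝ) /
        (nz (XK D κ) (Zer D κ R) : ℝ)) atTop (𝓝 ((b - a) / 2)) ∧
    Tendsto (fun R : ℝ => (nz (XK D κ) {z | z ∈ Zer D κ R ∧
      a * (D.d * κ * Real.log R) ≤ -z.re ∧ -z.re ≤ b * (D.d * κ * Real.log R)} : ℝ) /
        (nz (XK D κ) (Zer D κ R) : ℝ)) atTop (𝓝 ((b - a) / 2))) ∧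
  ∀ ε : ℝ, 0 < ε → ∀ᶠ R : ℝ in atTop,
    (1 / (D.d : ℝ) - ε) * (nz (XK D κ) (Zer D κ R) : ℝ) ≤
      (nz (XK D κ) {z | z ∈ Zer D κ R ∧ z.re ≠ 0} : ℝ)

end Pool.Agent.W475.BG
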