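import Pool.Agent.W475.BG.Fin
import Pool.Agent.W962.BG.Sym
import Pool.Agent.W790.BG.ST1
import Pool.Agent.W847.BG.STP
import Pool.Agent.W356.BG.GGC
import Pool.Agent.W2.BG.GGA
import Pool.Agent.W52.BG.GGU
import Pool.Agent.W398.BG.TAIL
import Pool.Agent.W351.BG.Loc
import Pool.Agent.W308.BG.UPP
import Pool.Agent.W334.BG.Lows
import Pool.Agent.W661.BG.Lowd
import Pool.Agent.W99.BG.D1
import Pool.Agent.W836.BG.VAR
import Pool.Agent.W721.BG.En
import Pool.Agent.W490.BG.Cal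
import Pool.Agent.W403.BG.Cat
import Pool.Agent.W195.BG.Win
import Pool.Agent.W273.BG.CRU
import Pool.Agent.W691.BG.Cnt
import Pool.Agent.W605.BG.CNA
import Pool.Agent.W202.BG.TOT
import Pool.Agent.W236.BG.DSC
import Pool.Agent.W304.BG.GRW
import Pool.Agent.W45.BG.EXP
import Pool.Agent.W782.BG.Cnj
import Pool.Agent.W701.BH.MV
import Pool.Agent.W346.BH.CB

set_option autoImplicit false

/-! # All the pieces together -/

namespace Pool.Agent.W475.BG

open Complex MeasureTheory Filter Topology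

/-- What is needed of `D` for the counts in dyadic blocks. -/
theorem cnts (D : Dat) (hD : Ok D) :
    S_SYM D ∧ S_GRW D ∧ S_CNA D ∧ S_CNT D := by
  have hY : S_SYM D := W962.BG.sym D hD
  have hG : S_GGC D := W356.BG.ggc D hD
  have hE : S_EXP D := W45.BG.exp_ D hD hG
  have hGr : S_GRW D := W304.BG.grw D hD hG hE hY
  have hS : S_STIR D := W847.BG.stp D hD (fun m hm => W790.BG.st1 m hm)
  have hA : S_GGA D := W2.BG.gga D hD hS hG
  have hU : S_GGU D := W52.BG.ggu D hD hS hG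
  have hT : S_TAIL D := W398.BG.tail D hD hS hG hU
  have hL : S_LOC D := W351.BG.loc D hD hE hS hA hT
  have hUp : S_UPP D := W308.BG.upp D hD hY hS hL
  have hLs : S_LOWS D := W334.BG.lows D hD hS hL
  have hLd : S_LOWD D := W661.BG.lowd D hD hY hS hL
  have hD1 : S_D1 D := W99.BG.d1 D hD
  have hV : S_VAR D := W836.BG.var D hD W701.BH.mv hD1
  have hEn : S_EN D := W721.BG.en D hD hV
  have hW : S_WIN D := W195.BG.win D hD hY hS hUp hLs hLd
  have hR : S_CRU D := W273.BG.cru D hD hY hS hUp hLd W346.BH.t_CB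
  exact ⟨hY, hGr, W605.BG.cna D hD hY hS W403.BG.cat hW hR,
    W691.BG.cnt D hD hY hS hEn W490.BG.cal hW hR⟩

/-- The theorem. -/
theorem main (D : Dat) (hD : Ok D) : S_SYM D ∧ S_FIN D := by
  obtain ⟨hY, hG, h1, h3⟩ := cnts D hD
  obtain ⟨-, -, h2, h4⟩ := cnts (cj D) (W782.BG.cnj D hD)
  have hT : S_TOT D := W202.BG.TOT.tot D hD hY hG h1 h2
  exact ⟨hY, fin hD hY hT (W236.BG.dsc D hD hY h3 h4 hT)⟩

end Pool.Agent.W475.BG
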