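import Pool.Agent.W475.BG.Stm
import Pool.Agent.W169.HF.DefsNF

set_option autoImplicit false

/-! # Instances of the theorem: the pieces -/

namespace Pool.Agent.W475.BG

open Complex MeasureTheory Filter Topology UpperHalfPlane MatrixGroups CongruenceSubgroup
open Pool.Agent.W475.BH (nz PP)
open Pool.Agent.W169.HF (coef IsForm IsCompleted)
open scoped ComplexConjugate

/-- Mean squares in short intervals. -/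
def Shrt (a : ℕ → ℂ) : Prop := ∃ C : ℝ, 0 < C ∧ ∀ x h : ℝ, 2 ≤ x → x / Real.log x ^ 3 ≤ h → h ≤ x →
  ∑ n ∈ Finset.Ioc ⌊x⌋₊ ⌊x + h⌋₊, ‖a n‖ ^ 2 ≤ C * h

/-- Mean squares over primes. -/
def Prim (a : ℕ → ℂ) : Prop := ∀ α β : ℝ, 0 < α → α < β → ∃ c T0 : ℝ, 0 < c ∧ 2 ≤ T0 ∧
  ∀ T : ℝ, T0 ≤ T →
    c ≤ ∑ p ∈ (Finset.Ioc ⌊T ^ α⌋₊ ⌊T ^ β⌋₊).filter Nat.Prime, ‖a p‖ ^ 2 / (p : ℝ)

/-- Task PRM: use the interval for `(α + δ, β - δ)`, `δ = (β - α) / 4`, and `T` large. -/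
def S_PRM : Prop := ∀ a : ℕ → ℂ, Prim a → ∀ α β : ℝ, 0 < α → α < β →
  ∃ c T0 : ℝ, 0 < c ∧ 2 ≤ T0 ∧ ∀ T : ℝ, T0 ≤ T →
    c ≤ ∑ p ∈ PP α β T, ‖a p‖ ^ 2 / (p : ℝ)

/-- Task ECI: newforms of weight two (`D.Q = √N`, `D.mu = 1/2, 3/2`, `D.a n = c(n) / √n`, `D.w = w`;
`Gammaℝ s * Gammaℝ (s + 1) = Gammaℂ s`). -/
def S_ECI : Prop := ∀ (N : ℕ) [NeZero N] (f : CuspForm (Gamma0 N : Subgroup (GL (Fin 2) ℝ)) 2)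
  (w : ℝ), IsForm N f w → ∀ Λ : ℂ → ℂ, IsCompleted f Λ →
  Shrt (fun n => coef f n / ((Real.sqrt n : ℝ) : ℂ)) →
  Prim (fun n => coef f n / ((Real.sqrt n : ℝ) : ℂ)) →
  ∃ D : Dat, Ok D ∧ D.d = 2 ∧
    ∀ s : ℂ, D.Lam s = ((2 * (N : ℝ) ^ (-(1 / 4) : ℝ) : ℝ) : ℂ) * Λ (s + 1 / 2)

/-- `Δ(i y) = e^(-2πy) ∏_{n ≥ 1} (1 - e^(-2πny))^24`. -/
noncomputable def delta (y : ℝ) : ℝ :=
  Real.exp (-2 * Real.pi * y) * ∏' n : ℕ, (1 - Real.exp (-2 * Real.pi * ((n : ℝ) + 1) * y)) ^ 24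

/-- `Λ(s) = ∫_0^∞ Δ(i y) y^(s-1) dy = (2π)^(-s) Γ(s) L(s, Δ)`. -/
noncomputable def LamD (s : ℂ) : ℂ := mellin (fun y : ℝ => ((delta y : ℝ) : ℂ)) s

/-- Task DEL: the discriminant (`D.Q = 1`, `D.mu = 11/2, 13/2`, `D.a n = τ(n) / n^(11/2)`, `D.w = 1`).
Analytic properties of `LamD`: `Pool.Agent.H128R3.JD.DelHk` and the Results file
`MP_cd509c_nt/HeatFlowDerivatives`. -/
def S_DEL : Prop := ∀ τ : ℕ → ℝ, τ 0 = 0 → τ 1 = 1 →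
  (∀ p n : ℕ, p.Prime → 1 ≤ n → ¬ p ∣ n → τ (p * n) = τ p * τ n) →
  (∀ y : ℝ, 0 < y → HasSum (fun n : ℕ => τ n * Real.exp (-2 * Real.pi * n * y)) (delta y)) →
  (∃ A : ℝ, 0 ≤ A ∧ ∀ n : ℕ, 1 ≤ n → |τ n| ≤ (n : ℝ) ^ A) →
  Shrt (fun n => ((τ n / (n : ℝ) ^ (11 / 2 : ℝ) : ℝ) : ℂ)) →
  Prim (fun n => ((τ n / (n : ℝ) ^ (11 / 2 : ℝ) : ℝ) : ℂ)) →
  ∃ D : Dat, Ok D ∧ D.d = 2 ∧ ∃ c : ℂ, c ≠ 0 ∧ ∀ s : ℂ, D.Lam s = c * LamD (s + 11 / 2)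

/-- Task FLW: the theorem for a function whose flow has its centre at `c0`. -/
noncomputable def flow (κ : ℝ) (Λ : ℂ → ℂ) (s : ℂ) : ℂ :=
  ((1 / Real.sqrt Real.pi : ℝ) : ℂ) *
    ∫ v : ℝ, ((Real.exp (-v ^ 2) : ℝ) : ℂ) * Λ (s + Complex.I * ((2 * Real.sqrt κ * v : ℝ) : ℂ))

/-- The zeros of the flow with distance at most `R` from the centre `c0`. -/
def zeros (κ : ℝ) (Λ : ℂ → ℂ) (c0 R : ℝ) : Set ℂ := {s : ℂ | flow κ Λ s = 0 ∧ ‖s - (c0 : ℂ)‖ ≤ R}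

/-- The number of zeros of the flow in `A`, with multiplicity. -/
noncomputable def num (κ : ℝ) (Λ : ℂ → ℂ) (A : Set ℂ) : ℝ :=
  ((∑ᶠ s ∈ A, analyticOrderNatAt (flow κ Λ) s : ℕ) : ℝ)

/-- The law: distribution of the zeros of the backward heat flow of a function of degree `d`. -/
def Law (d : ℕ) (c0 : ℝ) (Λ : ℂ → ℂ) : Prop := ∀ κ : ℝ, 0 < κ →
  (∀ R : ℝ, (zeros κ Λ c0 R).Finite) ∧
  Tendsto (fun R : ℝ => num κ Λ (zeros κ Λ c0 R) / (R * Real.log R)) atTop (𝓝 (d / Real.pi)) ∧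
  (∀ a b : ℝ, 1 - 1 / (d : ℝ) < a → a ≤ b → b ≤ 1 →
    Tendsto (fun R : ℝ => num κ Λ {s | s ∈ zeros κ Λ c0 R ∧
      a * (d * κ * Real.log R) ≤ s.re - c0 ∧ s.re - c0 ≤ b * (d * κ * Real.log R)} /
        num κ Λ (zeros κ Λ c0 R)) atTop (𝓝 ((b - a) / 2)) ∧
    Tendsto (fun R : ℝ => num κ Λ {s | s ∈ zeros κ Λ c0 R ∧
      a * (d * κ * Real.log R) ≤ c0 - s.re ∧ c0 - s.re ≤ b * (d * κ * Real.log R)} /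
        num κ Λ (zeros κ Λ c0 R)) atTop (𝓝 ((b - a) / 2))) ∧
  ∀ ε : ℝ, 0 < ε → ∀ᶠ R : ℝ in atTop,
    (1 / (d : ℝ) - ε) * num κ Λ (zeros κ Λ c0 R) ≤
      num κ Λ {s | s ∈ zeros κ Λ c0 R ∧ s.re ≠ c0}

end Pool.Agent.W475.BG
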